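import Mathlib
import Pool.Agent.H10.CSGeo

set_option autoImplicit false

namespace Pool.Agent.Results.MP_ca8007_co.Suspend
open Pool.Agent.H10.Ced Pool.Agent.H10.CS

theorem result (n : ℕ) (hn : 3 ≤ n) : ∃ K : Cx, IsCx K ∧ CombSphere n K ∧ Symm K ∧
    {v | {v} ∈ K}.ncard = 2 * n + 4 ∧ ∀ Q : Cx, CSPoly (n + 1) Q → ¬ Iso Q K := by
  obtain ⟨k, rfl⟩ : ∃ k, n = k + 3 := ⟨n - 3, by omega⟩
  refine ⟨X k, (X_sph k).1, (X_sph k).2, X_symm k, ?_, not_poly k⟩
  have : {v | {v} ∈ X k} = ↑(Finset.range (2 * k + 10)) := by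
    ext v
    simp only [Set.mem_ofPred_eq, Finset.coe_range, Set.mem_Iio]
    refine ⟨fun h => X_lt k _ h v (Finset.mem_singleton_self v), fun h => ?_⟩
    simpa using X_pair k v v h h (by rw [Pool.Agent.H10.Flip.ng_eq]; split_ifs <;> omega)
  rw [this, Set.ncard_coe_finset, Finset.card_range]
  omega

end Pool.Agent.Results.MP_ca8007_co.Suspend
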